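import Pool.Agent.Zk54.MQ.E9
import Pool.Agent.Zk54.MQ.PSL

/-!
# Groups all of whose composition factors of subgroups of index prime to `p` are tame
-/

set_option autoImplicit false
set_option linter.unusedSectionVars false
set_option linter.style.haveILetI false

namespace Pool.Agent.Zk47.MC

open Subgroup Pool.Agent.Zk54.MQ

/-- `p` divides the order and the outer automorphism group is cyclic of order prime to `p` -/
def Out1 (p : ℕ) (T : Type) [Group T] : Prop :=
  p ∣ Nat.card T ∧ ∃ (a : MulAut T) (b : ℕ), ¬ p ∣ b ∧ (∃ s : T, ∀ t, (a ^ b) t = s * t * s⁻¹) ∧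
    ∀ x : MulAut T, ∃ (i : ℕ) (s : T), ∀ t, x t = s * (a ^ i) t * s⁻¹

/-- cyclic Sylow `p`-subgroups and only inner automorphisms, or a cyclic outer automorphism group of order prime
to `p` and `p` divides the order -/
def TmS (p : ℕ) (T : Type) [Group T] : Prop :=
  (∀ Q : Sylow p T, IsCyclic Q) ∧ ((∀ x : MulAut T, ∃ s : T, ∀ t, x t = s * t * s⁻¹) ∨ Out1 p T)

/-- the nonabelian simple quotients of the normal subgroups of the normal subgroups of the subgroups of index
prime to `p` are tame -/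
def Fct (p : ℕ) (G : Type) [Group G] : Prop :=
  ∀ (C B A : Subgroup G) (T : Type) [Group T] (f : A →* T), ¬ p ∣ C.index →
    B ≤ C → (∀ c ∈ C, ∀ b ∈ B, c * b * c⁻¹ ∈ B) → A ≤ B → (∀ b ∈ B, ∀ a ∈ A, b * a * b⁻¹ ∈ A) →
    Function.Surjective f → IsSimpleGroup T → (∃ a b : T, a * b ≠ b * a) → TmS p T

theorem cyc_of {p : ℕ} [Fact p.Prime] {Y : Type} [Group Y] [Finite Y] (M S : Subgroup Y)
    (hSM : S ≤ M) (hSn : ∀ m ∈ M, ∀ s ∈ S, m * s * m⁻¹ ∈ S) (hSs : IsSimpleGroup S)
    {F : Type} [Group F] (hF : Out1 p F) (hcyc : ∀ Q : Sylow p F, IsCyclic Q) (e : F ≃* S) : Cyc p M := by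
  obtain ⟨hp, a, b, hb, ⟨s₀, hs₀⟩, hgen⟩ := hF
  haveI : Finite F := Finite.of_equiv S e.symm.toEquiv
  refine ⟨S, hSM, hSn, hSs, ?_, e9_sylow e hcyc, ?_⟩
  · rwa [Nat.card_congr e.toEquiv] at hp
  have hθ : ∀ (y : Y) (hy : y ∈ normalizer (S : Set Y)) (s : S),
      ((S.normalizerMonoidHom ⟨y, hy⟩ s : S) : Y) = y * s * y⁻¹ := fun y hy s => rfl
  let c : MulAut F ≃* MulAut S := MulAut.congr e
  have hc : ∀ (x : MulAut F) (t : S), c x t = e (x (e.symm t)) := fun x t => rfl
  -- the outer automorphism group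
  let π : MulAut S →* MulAut S ⧸ (MulAut.conj (G := S)).range := QuotientGroup.mk' _
  have hπ1 : ∀ s : S, π (MulAut.conj s) = 1 := fun s =>
    (QuotientGroup.eq_one_iff _).2 ⟨s, rfl⟩
  have hπ2 : ∀ x : MulAut S, π x = 1 → ∃ s : S, MulAut.conj s = x := fun x hx =>
    (QuotientGroup.eq_one_iff _).1 hx
  have hgen' : ∀ x : MulAut S, ∃ i : ℕ, π x = π (c a) ^ i := by
    intro x
    obtain ⟨i, s, h⟩ := hgen (c.symm x)
    refine ⟨i, ?_⟩
    have h1 : c.symm x = MulAut.conj s * a ^ i := by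
      ext t
      rw [h]
      rfl
    have h2 : x = c (MulAut.conj s) * c a ^ i := by
      rw [← map_pow, ← map_mul, ← h1, MulEquiv.apply_symm_apply]
    have h3 : c (MulAut.conj s) = MulAut.conj (e s) := by
      ext t
      rw [hc]
      simp [MulAut.conj_apply]
    rw [h2, h3, map_mul, hπ1, one_mul, map_pow]
  have hpb : π (c a) ^ b = 1 := by
    have h1 : a ^ b = MulAut.conj s₀ := by
      ext t
      rw [hs₀]
      rfl
    have h3 : c (MulAut.conj s₀) = MulAut.conj (e s₀) := by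
      ext t
      rw [hc]
      simp [MulAut.conj_apply]
    rw [← map_pow, ← map_pow, h1, h3, hπ1]
  haveI : IsCyclic (MulAut S ⧸ (MulAut.conj (G := S)).range) := by
    refine ⟨π (c a), fun q => ?_⟩
    obtain ⟨x, rfl⟩ := QuotientGroup.mk'_surjective _ q
    obtain ⟨i, hi⟩ := hgen' x
    exact ⟨i, (zpow_natCast _ _).trans hi.symm⟩
  let Θ : normalizer (S : Set Y) →* MulAut S ⧸ (MulAut.conj (G := S)).range :=
    π.comp S.normalizerMonoidHom
  haveI : IsCyclic Θ.range := inferInstance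
  obtain ⟨⟨g, y₀, rfl⟩, hg⟩ := IsCyclic.exists_generator (α := Θ.range)
  have hkey : ∀ y : normalizer (S : Set Y), ∃ i : ℕ, Θ y = Θ (y₀ ^ i) := by
    intro y
    obtain ⟨k, hk⟩ := mem_zpowers_iff.1 (hg ⟨Θ y, y, rfl⟩)
    have h1 : Θ y₀ ^ k = Θ y := congrArg Subtype.val hk
    have h2 : y₀ ^ k ∈ Submonoid.powers y₀ := mem_powers_iff_mem_zpowers.2 ⟨k, rfl⟩
    obtain ⟨i, hi⟩ := h2
    refine ⟨i, ?_⟩
    rw [← h1, ← map_zpow, ← hi]
  have hmem : ∀ y : Y, (∀ s ∈ S, y * s * y⁻¹ ∈ S) → y ∈ normalizer (S : Set Y) := fun y hy =>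
    mem_normalizer_fintype hy
  have hconv : ∀ y z : normalizer (S : Set Y), Θ y = Θ z → ∃ s ∈ S, ∀ t ∈ S,
      (y : Y) * t * (y : Y)⁻¹ = s * (z * t * (z : Y)⁻¹) * s⁻¹ := by
    intro y z hyz
    have h1 : π (S.normalizerMonoidHom y * (S.normalizerMonoidHom z)⁻¹) = 1 := by
      rw [map_mul, map_inv, mul_inv_eq_one]
      exact hyz
    obtain ⟨s, hs⟩ := hπ2 _ h1
    refine ⟨s, s.2, fun t ht => ?_⟩
    have h2 : S.normalizerMonoidHom y = MulAut.conj s * S.normalizerMonoidHom z := by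
      rw [hs, inv_mul_cancel_right]
    have h3 := congrArg (fun f : MulAut S => ((f ⟨t, ht⟩ : S) : Y)) h2
    exact h3
  refine ⟨y₀, b, ?_, hb, ?_, ?_⟩
  · intro s hs
    exact (mem_normalizer_iff.1 y₀.2 s).1 hs
  · have h1 : Θ (y₀ ^ b) = Θ 1 := by
      rw [map_one, map_pow]
      obtain ⟨i, hi⟩ := hgen' (S.normalizerMonoidHom y₀)
      have h2 : Θ y₀ = π (c a) ^ i := hi
      rw [h2, ← pow_mul, mul_comm, pow_mul, hpb, one_pow]
    obtain ⟨s, hs, h⟩ := hconv _ _ h1
    refine ⟨s, hs, fun t ht => ?_⟩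
    have := h t ht
    simpa using this
  · intro y hy
    obtain ⟨i, hi⟩ := hkey ⟨y, hmem y hy⟩
    obtain ⟨s, hs, h⟩ := hconv _ _ hi
    refine ⟨i, s, hs, fun t ht => ?_⟩
    have := h t ht
    simpa using this


/-- the reduction: extensions -/
theorem sec3_fct {p : ℕ} [hp : Fact p.Prime] (𝔊 : (S : Type) → [Group S] → Prop)
    (h𝔊 : ∀ (S : Type) [Group S] [Finite S], (∀ Q : Sylow p S, IsCyclic Q) → 𝔊 S)
    {G : Type} [Group G] [Finite G] (N : Subgroup G) [N.Normal] (hN : Fct p N)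
    (hq : Sec3 p 𝔊 (G ⧸ N)) : Sec3 p 𝔊 G := by
  intro Y _ H f hi hf hbad
  have hbad' := hbad
  haveI : Finite Y := Finite.of_surjective f hf
  obtain ⟨M, hM, hmin, hab, -, hInn, hCyc⟩ := hbad
  -- the part of `N`
  let K : Subgroup N := H.subgroupOf N
  have hKi : ¬ p ∣ K.index := M13_relIndex H N hi
  let ψ : K →* Y :=
    { toFun := fun k => f ⟨(k : N), k.2⟩
      map_one' := map_one f
      map_mul' := fun a b => by
        rw [← map_mul]
        rfl }
  have hψ : ∀ k : K, ψ k = f ⟨(k : N), k.2⟩ := fun k => rfl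
  have hr : ψ.range.Normal := by
    constructor
    rintro _ ⟨k, rfl⟩ y
    obtain ⟨g, rfl⟩ := hf y
    have h1 : (g : G) * (k : N) * (g : G)⁻¹ ∈ N := Normal.conj_mem inferInstance _ (k : N).2 _
    have h2 : (g : G) * (k : N) * (g : G)⁻¹ ∈ H := H.mul_mem (H.mul_mem g.2 k.2) (H.inv_mem g.2)
    refine ⟨⟨⟨_, h1⟩, h2⟩, ?_⟩
    rw [hψ, hψ, ← map_inv, ← map_mul, ← map_mul]
    rfl
  by_cases h0 : ψ.range = ⊥
  · -- `Y` is a section of `G / N`
    have hs : Function.Surjective ((QuotientGroup.mk' N).subgroupMap H) :=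
      MonoidHom.subgroupMap_surjective _ _
    have hker : ((QuotientGroup.mk' N).subgroupMap H).ker ≤ f.ker := by
      intro x hx
      have h1 : QuotientGroup.mk' N (x : G) = 1 := congrArg Subtype.val hx
      have h2 : (x : G) ∈ N := (QuotientGroup.eq_one_iff _).mp h1
      have h3 : ψ ⟨⟨x, h2⟩, x.2⟩ ∈ ψ.range := ⟨_, rfl⟩
      rw [h0, Subgroup.mem_bot] at h3
      exact h3
    refine hq Y (H.map (QuotientGroup.mk' N))
      (((QuotientGroup.mk' N).subgroupMap H).liftOfSurjective hs ⟨f, hker⟩) ?_ ?_ hbad'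
    · exact fun h' => hi (h'.trans (Subgroup.index_map_dvd H (QuotientGroup.mk'_surjective N)))
    · intro y
      obtain ⟨z, rfl⟩ := hf y
      exact ⟨_, MonoidHom.liftOfRightInverse_comp_apply _ _ _ ⟨f, hker⟩ z⟩
  have hMr : M ≤ ψ.range := hmin _ hr h0
  obtain ⟨S, hSM, hSn, hSs, a0, ha0, b0, hb0, hab0⟩ := e9_simple M hM hmin hab
  have hT : TmS p S := by
    let A : Subgroup N := (S.comap ψ).map K.subtype
    let B : Subgroup N := (M.comap ψ).map K.subtype
    have hAK : A ≤ K := map_subtype_le _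
    have hA : ∀ x : A, (ψ.comp (Subgroup.inclusion hAK)) x ∈ S := by
      rintro ⟨x, k, hk, rfl⟩
      exact hk
    let f' : A →* S := (ψ.comp (Subgroup.inclusion hAK)).codRestrict S hA
    refine hN K B A S f' hKi (map_subtype_le _) ?_ (map_mono (comap_mono hSM)) ?_ ?_ hSs
      ⟨⟨a0, ha0⟩, ⟨b0, hb0⟩, fun h => hab0 (congrArg Subtype.val h)⟩
    · rintro c hc _ ⟨b, hb, rfl⟩
      refine ⟨⟨c, hc⟩ * b * ⟨c, hc⟩⁻¹, ?_, rfl⟩
      show ψ _ ∈ M
      rw [map_mul, map_mul, map_inv]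
      exact hM.conj_mem _ hb _
    · rintro _ ⟨b, hb, rfl⟩ _ ⟨a, ha, rfl⟩
      refine ⟨b * a * b⁻¹, ?_, rfl⟩
      show ψ _ ∈ S
      rw [map_mul, map_mul, map_inv]
      exact hSn _ hb _ ha
    · rintro ⟨s, hs⟩
      obtain ⟨k, hk⟩ := hMr (hSM hs)
      refine ⟨⟨k, ⟨k, ?_, rfl⟩⟩, Subtype.ext hk⟩
      show ψ k ∈ S
      rw [hk]
      exact hs
  obtain ⟨hcyc, hT | hT⟩ := hT
  · apply hInn
    refine ⟨S, hSM, hSn, hSs, fun y hy => ?_, h𝔊 S hcyc⟩
    have hy' : y ∈ normalizer (S : Set Y) := mem_normalizer_fintype hy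
    obtain ⟨s, hs⟩ := hT (S.normalizerMonoidHom ⟨y, hy'⟩)
    exact ⟨s, s.2, fun t ht => congrArg Subtype.val (hs ⟨t, ht⟩)⟩
  · exact hCyc (cyc_of M S hSM hSn hSs hT hcyc (MulEquiv.refl S))

theorem fct_surj {p : ℕ} {G F : Type} [Group G] [Group F] (q : G →* F)
    (hq : Function.Surjective q) (h : Fct p G) : Fct p F := by
  intro C B A T _ f hC hBC hB hAB hA hf hT hab
  refine h (C.comap q) (B.comap q) (A.comap q) T (f.comp (q.subgroupComap A)) ?_
    (comap_mono hBC) ?_ (comap_mono hAB) ?_ ?_ hT hab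
  · rwa [index_comap_of_surjective _ hq]
  · intro c hc b hb
    rw [mem_comap] at hc hb ⊢
    rw [map_mul, map_mul, map_inv]
    exact hB _ hc _ hb
  · intro c hc b hb
    rw [mem_comap] at hc hb ⊢
    rw [map_mul, map_mul, map_inv]
    exact hA _ hc _ hb
  · refine hf.comp ?_
    rintro ⟨y, hy⟩
    obtain ⟨x, rfl⟩ := hq y
    exact ⟨⟨x, hy⟩, rfl⟩

theorem fct_sol {p : ℕ} {G : Type} [Group G] (h : Group.IsSolvable G) : Fct p G := by
  intro C B A T _ f hC hBC hB hAB hA hf hT hab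
  haveI := h
  haveI : Group.IsSolvable A := Group.isSolvable_of_isSolvable_injective A.subtype_injective
  have h1 : Group.IsSolvable T := Group.isSolvable_of_surjective hf
  obtain ⟨a, b, hab⟩ := hab
  exact absurd ((IsSimpleGroup.comm_iff_isSolvable (G := T)).2 h1 a b) hab

/-- extensions -/
theorem fct_ext {p : ℕ} [hp : Fact p.Prime] {N G F : Type} [Group N] [Group G] [Finite G] [Group F]
    (j : N →* G) (q : G →* F) (hq : Function.Surjective q) (hk : q.ker = j.range)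
    (hN : Fct p N) (hF : Fct p F) : Fct p G := by
  intro C B A T _ f hC hBC hB hAB hA hf hT hab
  haveI hnr : j.range.Normal := by
    rw [← hk]
    infer_instance
  let f' : (A.comap j : Subgroup N) →* T := f.comp (j.subgroupComap A)
  have hf' : ∀ x : (A.comap j : Subgroup N), f' x = f ⟨j x, x.2⟩ := fun x => rfl
  have hn : f'.range.Normal := by
    constructor
    rintro _ ⟨x, rfl⟩ t
    obtain ⟨a, rfl⟩ := hf t
    have h1 : (a : G) * j x * (a : G)⁻¹ ∈ j.range := hnr.conj_mem _ ⟨x, rfl⟩ _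
    obtain ⟨y, hy⟩ := h1
    have h2 : j y ∈ A := by
      rw [hy]
      exact A.mul_mem (A.mul_mem a.2 x.2) (A.inv_mem a.2)
    refine ⟨⟨y, h2⟩, ?_⟩
    rw [hf', hf', ← map_inv, ← map_mul, ← map_mul]
    exact congrArg f (Subtype.ext hy)
  rcases hn.eq_bot_or_eq_top with h0 | h0
  · -- the image in `F`
    have hs : Function.Surjective (q.subgroupMap A) := MonoidHom.subgroupMap_surjective _ _
    have hker : (q.subgroupMap A).ker ≤ f.ker := by
      intro x hx
      have h1 : q (x : G) = 1 := congrArg Subtype.val hx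
      have h2 : (x : G) ∈ j.range := by
        rw [← hk]
        exact h1
      obtain ⟨y, hy⟩ := h2
      have hyA : j y ∈ A := by
        rw [hy]
        exact x.2
      have h3 : f' ⟨y, hyA⟩ ∈ f'.range := ⟨_, rfl⟩
      rw [h0, Subgroup.mem_bot, hf'] at h3
      rw [MonoidHom.mem_ker, ← h3]
      exact congrArg f (Subtype.ext hy.symm)
    refine hF (C.map q) (B.map q) (A.map q) T ((q.subgroupMap A).liftOfSurjective hs ⟨f, hker⟩)
      ?_ (map_mono hBC) ?_ (map_mono hAB) ?_ ?_ hT hab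
    · exact fun h' => hC (h'.trans (Subgroup.index_map_dvd C hq))
    · rintro _ ⟨c, hc, rfl⟩ _ ⟨b, hb, rfl⟩
      exact ⟨c * b * c⁻¹, hB _ hc _ hb, by rw [map_mul, map_mul, map_inv]⟩
    · rintro _ ⟨c, hc, rfl⟩ _ ⟨b, hb, rfl⟩
      exact ⟨c * b * c⁻¹, hA _ hc _ hb, by rw [map_mul, map_mul, map_inv]⟩
    · intro y
      obtain ⟨z, rfl⟩ := hf y
      exact ⟨_, MonoidHom.liftOfRightInverse_comp_apply _ _ _ ⟨f, hker⟩ z⟩
  · refine hN (C.comap j) (B.comap j) (A.comap j) T f' ?_ (comap_mono hBC) ?_ (comap_mono hAB) ?_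
      (MonoidHom.range_eq_top.1 h0) hT hab
    · rw [index_comap]
      exact M13_relIndex C j.range hC
    · intro c hc b hb
      rw [mem_comap] at hc hb ⊢
      rw [map_mul, map_mul, map_inv]
      exact hB _ hc _ hb
    · intro c hc b hb
      rw [mem_comap] at hc hb ⊢
      rw [map_mul, map_mul, map_inv]
      exact hA _ hc _ hb

theorem tms_iso {p : ℕ} [hp : Fact p.Prime] {S T : Type} [Group S] [Finite S] [Group T]
    (e : S ≃* T) (h : TmS p S) : TmS p T := by
  obtain ⟨h1, h2⟩ := h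
  let c : MulAut S ≃* MulAut T := MulAut.congr e
  have hc : ∀ (x : MulAut S) (t : T), c x t = e (x (e.symm t)) := fun x t => rfl
  refine ⟨e9_sylow e h1, ?_⟩
  rcases h2 with h2 | ⟨hd, a, b, hb, ⟨s₀, hs₀⟩, hgen⟩
  · left
    intro x
    obtain ⟨s, hs⟩ := h2 (c.symm x)
    refine ⟨e s, fun t => ?_⟩
    have h3 : x t = c (c.symm x) t := by rw [MulEquiv.apply_symm_apply]
    rw [h3, hc, hs]
    simp
  · right
    refine ⟨?_, c a, b, hb, ⟨e s₀, fun t => ?_⟩, fun x => ?_⟩
    · rwa [Nat.card_congr e.toEquiv] at hd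
    · rw [← map_pow, hc, hs₀]
      simp
    · obtain ⟨i, s, hs⟩ := hgen (c.symm x)
      refine ⟨i, e s, fun t => ?_⟩
      have h3 : x t = c (c.symm x) t := by rw [MulEquiv.apply_symm_apply]
      rw [h3, hc, hs, ← map_pow, hc]
      simp

/-- simple groups -/
theorem fct_simple {p : ℕ} [hp : Fact p.Prime] {S : Type} [Group S] [Finite S]
    (hSs : IsSimpleGroup S) (hS : TmS p S)
    (hsub : ∀ K : Subgroup S, ¬ p ∣ K.index → K = ⊤ ∨ Fct p K) : Fct p S := by
  intro C B A T _ f hC hBC hB hAB hA hf hT hab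
  rcases hsub C hC with h0 | h0
  · subst h0
    obtain ⟨a, b, hab'⟩ := hab
    have hne : A ≠ ⊥ := by
      rintro rfl
      haveI : Subsingleton T := hf.subsingleton
      exact hab' (Subsingleton.elim _ _)
    have hB1 : B.Normal := ⟨fun b hb c => hB c (mem_top c) b hb⟩
    have hB2 : B = ⊤ := hB1.eq_bot_or_eq_top.resolve_left (fun h => hne (le_bot_iff.1 (h ▸ hAB)))
    subst hB2
    have hA1 : A.Normal := ⟨fun b hb c => hA c (mem_top c) b hb⟩
    have hA2 : A = ⊤ := hA1.eq_bot_or_eq_top.resolve_left hne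
    subst hA2
    let g : S →* T := f.comp (Subgroup.topEquiv (G := S)).symm.toMonoidHom
    have hg : Function.Surjective g := hf.comp (Subgroup.topEquiv (G := S)).symm.surjective
    have hinj : Function.Injective g := by
      rw [← MonoidHom.ker_eq_bot_iff]
      refine (g.normal_ker.eq_bot_or_eq_top).resolve_right fun ht => ?_
      obtain ⟨x, hx⟩ := exists_ne (1 : T)
      obtain ⟨y, rfl⟩ := hg x
      apply hx
      have : y ∈ g.ker := by rw [ht]; exact mem_top _
      exact this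
    exact tms_iso (MulEquiv.ofBijective g ⟨hinj, hg⟩) hS
  · refine h0 ⊤ (B.subgroupOf C) (A.subgroupOf C) T
      (f.comp (Subgroup.subgroupOfEquivOfLe (hAB.trans hBC)).toMonoidHom) ?_ le_top ?_ ?_ ?_ ?_ hT hab
    · rw [index_top]
      exact hp.out.one_lt.ne' ∘ Nat.dvd_one.1
    · rintro c - b hb
      exact hB _ c.2 _ hb
    · exact comap_mono hAB
    · intro b hb a ha
      exact hA _ hb _ ha
    · exact hf.comp (Subgroup.subgroupOfEquivOfLe (hAB.trans hBC)).surjective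

/-- `PSL_2(p)` -/
theorem fct_TT {p : ℕ} [hp : Fact p.Prime] {S : Type} [Group S] [Finite S] (h : TT p S) :
    Fct p S := by
  obtain ⟨h1, -, h3, h4, h5, h6⟩ := h
  exact fct_simple h1 ⟨h4, Or.inr ⟨h3, h6⟩⟩ fun K hK => (h5 K hK).imp id fct_sol

theorem fct_prod {p : ℕ} [_hp : Fact p.Prime] {A B : Type} [Group A] [Finite A] [Group B] [Finite B]
    (hA : Fct p A) (hB : Fct p B) : Fct p (A × B) := by
  refine fct_ext (MonoidHom.inl A B) (MonoidHom.snd A B) (fun b => ⟨(1, b), rfl⟩) ?_ hA hB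
  ext x
  constructor
  · intro hx
    exact ⟨x.1, Prod.ext rfl hx.symm⟩
  · rintro ⟨a, rfl⟩
    rfl

theorem fct_pi {p : ℕ} [hp : Fact p.Prime] {Ω A : Type} [Finite Ω] [Group A] [Finite A]
    (h : Fct p A) : Fct p (Ω → A) := by
  have key : ∀ n : ℕ, Fct p (Fin n → A) := by
    intro n
    induction n with
    | zero =>
      apply fct_sol
      infer_instance
    | succ n ih =>
      let e : A × (Fin n → A) →* (Fin (n + 1) → A) :=
        { toFun := fun x => Fin.cons x.1 x.2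
          map_one' := by
            funext i
            refine Fin.cases ?_ (fun j => ?_) i
            · simp
            · simp
          map_mul' := fun x y => by
            funext i
            refine Fin.cases ?_ (fun j => ?_) i
            · simp
            · simp }
      refine fct_surj e (fun u => ⟨(u 0, fun i => u i.succ), ?_⟩) (fct_prod h ih)
      funext i
      refine Fin.cases ?_ (fun j => ?_) i
      · rfl
      · rfl
  obtain ⟨n, ⟨e⟩⟩ := Finite.exists_equiv_fin Ω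
  let E : (Fin n → A) →* (Ω → A) :=
    { toFun := fun u ω => u (e ω)
      map_one' := rfl
      map_mul' := fun _ _ => rfl }
  refine fct_surj E (fun u => ⟨fun i => u (e.symm i), ?_⟩) (key n)
  funext ω
  show u (e.symm (e ω)) = u ω
  rw [Equiv.symm_apply_apply]

end Pool.Agent.Zk47.MC
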